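import Pool.Agent.Lib.MP_f23696_ag.R.Fnr

/-!
Lower semicontinuity of minimal log discrepancies for normal affine varieties with a torus action
of arbitrary complexity whose quotient is a projective space with a hyperplane arrangement in
general position (any dimension), with an invariant effective boundary.
The definitions are in `Pool.Agent.Lib.MP_f23696_ag.Defs` and `Pool.Agent.Lib.MP_f23696_ag.DefsR`.
-/

namespace Pool.Agent.MLD.OldArrangement

open Pool.Agent.MLD

universe u v

/-- `K = k(x_1, …, x_m, z_0, …, z_c)`; `L_Q` (`Q < r`) are affine linear forms in `z`, any `c + 2`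
of them linearly independent, the first `c + 2` of them being `1, z_0, …, z_c`; monomials are the
products of powers of the `L_Q(z)` and the `x_i`.  `X = Spec A` is a normal affine variety with
function field `K`, `A` is generated by finitely many monomials, all monomials are quotients of
monomials in `A`, and no prime divisor of `X` is contracted by the quotient map to the projective
space (at most one form has more than the minimal value).  `Δ = ∑ δ(q) V(q)` is an effective
`ℝ`-divisor whose components are generated by monomials and `K_X + Δ` is `ℝ`-Cartier.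
Then `mld_(X,Δ)` is lower semicontinuous on the closed points of `X`. -/
theorem result {k : Type u} {K : Type v} [Field k] [IsAlgClosed k] [CharZero k] [Field K]
    [Algebra k K] {c m r : ℕ} (z : Fin (c + 1) → K) (x : Fin m → K)
    (hind : AlgebraicIndependent k (Fin.append x z))
    (hgen : IntermediateField.adjoin k (Set.range x ∪ Set.range z) = ⊤)
    (D : Fin (m + (c + 1)) → Derivation k K K)
    (hD : ∀ i j, D i (Fin.append x z j) = if i = j then 1 else 0)
    (L : Fin r → Fin (c + 2) → k) (hr : c + 2 ≤ r)
    (hL : ∀ i : Fin (c + 2), L (Fin.castLE hr i) = Pi.single i 1)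
    (hgp : ∀ f : Fin (c + 2) → Fin r, Function.Injective f →
      (Matrix.of fun i j => L (f i) j).det ≠ 0)
    (A : Subalgebra k K) (G : Finset K) (hG : ∀ g ∈ G, IsArrMon L z x g)
    (hA : Algebra.adjoin k (G : Set K) = A)
    (hfull : ∀ f : K, IsArrMon L z x f → ∃ a b : A, IsArrMon L z x (a : K) ∧
      IsArrMon L z x (b : K) ∧ f = (a : K) / b)
    [IsFractionRing A K] [IsIntegrallyClosed A]
    (hcon : ∀ q : Ideal A, IsHeightOne q → ∀ v : DVal k K, v.HasCenter A q →
      ∀ Q₁ Q₂ Q₃, Q₁ ≠ Q₂ → v.ord (linForm z (L Q₃)) < v.ord (linForm z (L Q₁)) →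
        ¬ v.ord (linForm z (L Q₃)) < v.ord (linForm z (L Q₂)))
    (δ : Ideal A →₀ ℝ) (hδ0 : ∀ q, 0 ≤ δ q)
    (hδ : ∀ q, δ q ≠ 0 → IsHeightOne q ∧ IsMonIdeal L z x q)
    (hRC : ∀ x : MaximalSpectrum A, ∃ γ : Kˣ →₀ ℝ, IsLocalEq A D δ x.asIdeal γ) :
    LowerSemicontinuous (mld A D δ) :=
  R.final z x hind hgen D hD L hr hL hgp A G hG hA hfull hcon δ hδ0 hδ hRC

end Pool.Agent.MLD.OldArrangement
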