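import Pool.Agent.Lib.MP_f23696_ag.Y.CoxMain

/-!
Lower semicontinuity of minimal log discrepancies for normal affine varieties whose ring of sections
of some Weil divisors (for instance the Cox ring) is a complete intersection, with an arbitrary
effective boundary.

The definitions are in `Pool.Agent.Lib.MP_f23696_ag.Defs` (`DVal`, `IsDivisorial`, `HasCenter`,
`FormOrd`, `IsHeightOne`, `IsLocalEq`, `logDiscs`, `mld`), `Pool.Agent.Lib.MP_f23696_ag.Y.MldP`
(`logDiscsP`, `mldP`) and `Pool.Agent.Lib.MP_f23696_ag.Y.CoxD` (`IsSec`).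
-/

set_option autoImplicit false

namespace Pool.Agent.Results.MP_f23696_ag.SectionRings

open MvPolynomial
open Pool.Agent.MLD Pool.Agent.MLD.Cox

universe u v

/-- `X = Spec A` is a normal affine variety of dimension `m + 1` over the algebraically closed field
`k` of characteristic `0`, with function field `K`; `y` is a transcendence basis of `K/k` and
`D_i = ∂/∂y_i`.  `E_1, …, E_h` are Weil divisors on `X`.  The ring of sections
`R = ⊕_(β ∈ ℤ^h) H^0(X, O(∑ β_l E_l)) s^β` is a complete intersection: it is generated by the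
homogeneous elements `ξ_i s^(χ_i)`, `i < N`, `ξ_i ≠ 0` (`hgen`: the sections of `∑ β_l E_l` are the
values at `ξ` of the homogeneous polynomials of degree `β`), and the ideal of the relations between
them is generated by `c` homogeneous polynomials, `N - c = dim R = m + 1 + h` (`hrel`).
`Δ = ∑ δ(q) V(q)` is an effective `ℝ`-divisor and `K_X + Δ` is `ℝ`-Cartier at the closed point `x`.
Then `mld(x) ≤ mld(η) + dim W` for every irreducible closed subset `W = V(q)` with generic point `η`
which contains `x`. -/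
theorem result {k : Type u} {K : Type v} [Field k] [IsAlgClosed k] [CharZero k] [Field K]
    [Algebra k K] {m h c N : ℕ} (y : Fin (m + 1) → K) (hy : IsTranscendenceBasis k y)
    (D : Fin (m + 1) → Derivation k K K) (hD : ∀ i j, D i (y j) = if i = j then 1 else 0)
    (A : Subalgebra k K) (hfg : A.FG) [IsFractionRing A K] [IsIntegrallyClosed A]
    (E : Fin h → Ideal A →₀ ℤ) (ξ : Fin N → K) (hξ : ∀ i, ξ i ≠ 0) (χ : Fin N → Fin h → ℤ)
    (f : Fin c → MvPolynomial (Fin N) k) (hN : N = m + 1 + h + c)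
    (hf : ∀ j, ∃ ψ : Fin h → ℤ, IsWeightedHomogeneous χ (f j) ψ)
    (hgen : ∀ (β : Fin h → ℤ) (b : K), IsSec A E β b ↔
      ∃ P : MvPolynomial (Fin N) k, IsWeightedHomogeneous χ P β ∧ b = aeval ξ P)
    (hrel : ∀ (β : Fin h → ℤ) (P : MvPolynomial (Fin N) k), IsWeightedHomogeneous χ P β →
      (aeval ξ P = 0 ↔ P ∈ Ideal.span (Set.range f)))
    (δ : Ideal A →₀ ℝ) (hδ : ∀ p, 0 ≤ δ p) (x : MaximalSpectrum A)
    (hRC : ∃ γ : Kˣ →₀ ℝ, IsLocalEq A D δ x.asIdeal γ) (q : Ideal A) (hq : q.IsPrime)
    (hqx : q ≤ x.asIdeal) :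
    ∃ d : ℕ, ringKrullDim (A ⧸ q) = d ∧ mld A D δ x ≤ mldP A D δ q + (d : EReal) :=
  coxMain y hy D hD A hfg E ξ hξ χ f hN hf hgen hrel δ hδ x hRC q hq hqx

end Pool.Agent.Results.MP_f23696_ag.SectionRings
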